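import Mathlib

/-! Complete prefix codes of the natural numbers over a countable alphabet. -/

namespace Pool.Agent.P.MP_9b1908_lc.Code

variable {Λ : Type}

theorem rep_prefix {a c d : Λ} (hc : c ≠ a) (hd : d ≠ a) :
    ∀ k l : ℕ, List.replicate k a ++ [c] <+: List.replicate l a ++ [d] → k = l ∧ c = d := by
  intro k
  induction k with
  | zero =>
    intro l h
    cases l with
    | zero => simpa using h
    | succ l =>
      rw [List.replicate_succ] at h
      simp only [List.replicate_zero, List.nil_append, List.cons_append, List.cons_prefix_cons] at h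
      exact absurd h.1 hc
  | succ k ih =>
    intro l h
    cases l with
    | zero =>
      rw [List.replicate_succ] at h
      simp only [List.replicate_zero, List.nil_append, List.cons_append, List.cons_prefix_cons] at h
      exact absurd h.1.symm hd
    | succ l =>
      rw [List.replicate_succ, List.replicate_succ] at h
      simp only [List.cons_append, List.cons_prefix_cons, true_and] at h
      obtain ⟨h1, h2⟩ := ih l h
      exact ⟨by omega, h2⟩

theorem exists_code (Λ : Type) [Countable Λ] [Nontrivial Λ] :
    ∃ w : ℕ → List Λ, (∀ n, w n ≠ []) ∧ (∀ n m, w n <+: w m → n = m) ∧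
      ∀ u : List Λ, ∃ s : List ℕ, u <+: s.flatMap w := by
  classical
  obtain ⟨a, b, hab⟩ := exists_pair_ne Λ
  have : Nonempty {c : Λ // c ≠ a} := ⟨⟨b, hab.symm⟩⟩
  obtain ⟨D⟩ := nonempty_denumerable (ℕ × {c : Λ // c ≠ a})
  let e : ℕ × {c : Λ // c ≠ a} ≃ ℕ := Denumerable.eqv _
  let w : ℕ → List Λ := fun n => List.replicate (e.symm n).1 a ++ [((e.symm n).2 : Λ)]
  have hw : ∀ k (c : {c : Λ // c ≠ a}), w (e (k, c)) = List.replicate k a ++ [(c : Λ)] := by
    intro k c
    simp [w]
  refine ⟨w, fun n => by simp [w], fun n m h => ?_, fun u => ?_⟩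
  · obtain ⟨h1, h2⟩ := rep_prefix (e.symm n).2.2 (e.symm m).2.2 _ _ h
    exact e.symm.injective (Prod.ext h1 (Subtype.ext h2))
  · suffices h : ∃ k c, ∃ s : List ℕ, u <+: (e (k, c) :: s).flatMap w by
      obtain ⟨k, c, s, h⟩ := h
      exact ⟨_, h⟩
    induction u with
    | nil => exact ⟨0, ⟨b, hab.symm⟩, [], List.nil_prefix⟩
    | cons c u ih =>
      obtain ⟨k, d, s, h⟩ := ih
      by_cases hc : c = a
      · refine ⟨k + 1, d, s, ?_⟩
        rw [List.flatMap_cons, hw] at h ⊢
        rw [List.replicate_succ, hc]
        simpa only [List.cons_append, List.cons_prefix_cons, true_and] using h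
      · refine ⟨0, ⟨c, hc⟩, e (k, d) :: s, ?_⟩
        rw [List.flatMap_cons, hw]
        simpa only [List.replicate_zero, List.nil_append, List.cons_append, List.cons_prefix_cons,
          true_and] using h

theorem code_mono (w : ℕ → List Λ) {s t : List ℕ} (h : s <+: t) :
    s.flatMap w <+: t.flatMap w := by
  obtain ⟨r, rfl⟩ := h
  rw [List.flatMap_append]
  exact List.prefix_append _ _

theorem prefix_of_code {w : ℕ → List Λ} (h1 : ∀ n, w n ≠ []) (h2 : ∀ n m, w n <+: w m → n = m) :
    ∀ s t : List ℕ, s.flatMap w <+: t.flatMap w → s <+: t := by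
  intro s
  induction s with
  | nil => intro t _; exact List.nil_prefix
  | cons n s ih =>
    intro t h
    cases t with
    | nil =>
      rw [List.flatMap_nil, List.prefix_nil, List.flatMap_cons, List.append_eq_nil_iff] at h
      exact absurd h.1 (h1 n)
    | cons m t =>
      rw [List.flatMap_cons, List.flatMap_cons] at h
      have hnm : n = m := by
        rcases List.prefix_or_prefix_of_prefix ((List.prefix_append _ _).trans h)
          (List.prefix_append (w m) (t.flatMap w)) with h3 | h3
        · exact h2 _ _ h3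
        · exact (h2 _ _ h3).symm
      subst hnm
      rw [List.prefix_append_right_inj] at h
      exact List.cons_prefix_cons.2 ⟨rfl, ih t h⟩

theorem length_le_code {w : ℕ → List Λ} (h1 : ∀ n, w n ≠ []) (s : List ℕ) :
    s.length ≤ (s.flatMap w).length := by
  induction s with
  | nil => simp
  | cons n s ih =>
    have := List.length_pos_of_ne_nil (h1 n)
    rw [List.flatMap_cons, List.length_append, List.length_cons]
    omega

theorem pre_mono {α : Type} (x : ℕ → α) {n m : ℕ} (h : n ≤ m) :
    List.ofFn (fun i : Fin n => x i) <+: List.ofFn (fun i : Fin m => x i) := by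
  rw [List.prefix_iff_getElem?]
  intro i hi
  rw [List.length_ofFn] at hi
  rw [List.getElem?_eq_getElem (by rw [List.length_ofFn]; omega)]
  simp

theorem exists_map [Nonempty Λ] [TopologicalSpace Λ] {w : ℕ → List Λ} (h1 : ∀ n, w n ≠ [])
    (h2 : ∀ n m, w n <+: w m → n = m) :
    ∃ F : (ℕ → ℕ) → ℕ → Λ, Continuous F ∧ Function.Injective F ∧ ∀ x n,
      List.ofFn (fun i : Fin n => F x i) <+: (List.ofFn fun i : Fin n => x i).flatMap w := by
  obtain ⟨a⟩ := ‹Nonempty Λ›
  let F : (ℕ → ℕ) → ℕ → Λ :=
    fun x i => ((List.ofFn fun j : Fin (i + 1) => x j).flatMap w).getD i a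
  have hlen : ∀ (x : ℕ → ℕ) n, n ≤ ((List.ofFn fun j : Fin n => x j).flatMap w).length := by
    intro x n
    have := length_le_code h1 (List.ofFn fun j : Fin n => x j)
    rwa [List.length_ofFn] at this
  have hF : ∀ x n,
      List.ofFn (fun i : Fin n => F x i) <+: (List.ofFn fun i : Fin n => x i).flatMap w := by
    intro x n
    rw [List.prefix_iff_getElem?]
    intro i hi
    rw [List.length_ofFn] at hi
    have h3 := List.prefix_iff_getElem?.1 (code_mono w (pre_mono x (show i + 1 ≤ n from hi))) i
      (hlen x (i + 1))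
    rw [h3, List.getElem_ofFn]
    simp only [F]
    rw [List.getD_eq_getElem _ _ (hlen x (i + 1))]
  refine ⟨F, ?_, ?_, hF⟩
  · refine continuous_pi fun i => ?_
    have hc : Continuous fun (x : ℕ → ℕ) (j : Fin (i + 1)) => x j :=
      continuous_pi fun j => continuous_apply _
    have hd : Continuous fun y : Fin (i + 1) → ℕ => ((List.ofFn y).flatMap w).getD i a :=
      continuous_of_discreteTopology
    exact hd.comp hc
  · intro x y hxy
    funext i
    set u := (List.ofFn fun j : Fin (i + 1) => x j).flatMap w with hu
    have h3 : u <+: (List.ofFn fun j : Fin u.length => x j).flatMap w :=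
      code_mono w (pre_mono x (hlen x (i + 1)))
    have h4 : u <+: List.ofFn fun j : Fin u.length => F x j :=
      List.prefix_of_prefix_length_le h3 (hF x u.length) (by rw [List.length_ofFn])
    rw [hxy] at h4
    have h5 := prefix_of_code h1 h2 _ _ (h4.trans (hF y u.length))
    have h6 := List.prefix_iff_getElem?.1 h5 i (by rw [List.length_ofFn]; omega)
    have h7 : i < u.length := hlen x (i + 1)
    rw [List.getElem?_eq_getElem (by rw [List.length_ofFn]; exact h7), List.getElem_ofFn,
      List.getElem_ofFn] at h6
    exact (Option.some.inj h6).symm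

end Pool.Agent.P.MP_9b1908_lc.Code
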