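import Pool.Agent.P.MP_9b1908_lc.Generic

/-! The conditions of the forcing, as products of sets of allowed letters. -/

set_option maxHeartbeats 400000

namespace Pool.Agent.P.MP_9b1908_lc

open Set Function

/-- The path coded by a letter. -/
def pc (a l : ℕ) : ℕ := Nat.beta a (2 * l)

/-- The side values coded by a letter. -/
def zc (a i : ℕ) : ℕ := Nat.beta a (2 * i + 1)

lemma exists_letter (g h : ℕ → ℕ) (n : ℕ) : ∃ a, ∀ i < n, pc a i = g i ∧ zc a i = h i := by
  let l : List ℕ := (List.range (2 * n)).map fun i => if i % 2 = 0 then g (i / 2) else h (i / 2)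
  have hl : l.length = 2 * n := by simp [l]
  refine ⟨Nat.unbeta l, fun i hi => ⟨?_, ?_⟩⟩
  · have := Nat.beta_unbeta_coe l ⟨2 * i, by omega⟩
    simp only [l, Fin.getElem_fin, List.getElem_map, List.getElem_range] at this
    rw [if_pos (by omega), show 2 * i / 2 = i by omega] at this
    exact this
  · have := Nat.beta_unbeta_coe l ⟨2 * i + 1, by omega⟩
    simp only [l, Fin.getElem_fin, List.getElem_map, List.getElem_range] at this
    rw [if_neg (by omega), show (2 * i + 1) / 2 = i by omega] at this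
    exact this

/-- The letter `a` follows `η` on the first `m` levels. -/
def Vis (m : ℕ) (η : ℕ → ℕ) (a : ℕ) : Prop := ∀ l < m, pc a l = η l

/-- The letter `a` is allowed: it leaves `η` only to the right, showing the value `β l`. -/
def Al (m : ℕ) (η β : ℕ → ℕ) (a : ℕ) : Prop :=
  ∀ l < m, Vis l η a → pc a l = η l ∨ (η l < pc a l ∧ zc a (η l) = β l)

lemma Vis.al {m : ℕ} {η : ℕ → ℕ} {a : ℕ} (h : Vis m η a) (β : ℕ → ℕ) : Al m η β a :=
  fun l hl _ => Or.inl (h l hl)

lemma Vis.mono {m m' : ℕ} {η : ℕ → ℕ} {a : ℕ} (h : Vis m η a) (hm : m' ≤ m) : Vis m' η a :=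
  fun l hl => h l (by omega)

lemma Vis.congr {m : ℕ} {η η' : ℕ → ℕ} {a : ℕ} (h : Vis m η a) (hη : ∀ l < m, η' l = η l) :
    Vis m η' a := fun l hl => (h l hl).trans (hη l hl).symm

lemma Al.le {m : ℕ} {η β : ℕ → ℕ} {a l : ℕ} (h : Al m η β a) (hl : l < m) (hv : Vis l η a) :
    η l ≤ pc a l := by
  rcases h l hl hv with h | h <;> omega

lemma Al.of_le {m m' : ℕ} {η η' β β' : ℕ → ℕ} {a : ℕ} (h : Al m' η' β' a) (hm : m ≤ m')
    (hη : ∀ l < m, η' l = η l) (hβ : ∀ l < m, β' l = β l) : Al m η β a := by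
  intro l hl hv
  have := h l (by omega) (hv.congr fun l' hl' => hη l' (by omega))
  rwa [hη l hl, hβ l hl] at this

lemma exists_two (m : ℕ) (η : ℕ → ℕ) : ∃ a b, a ≠ b ∧ Vis m η a ∧ Vis m η b := by
  obtain ⟨a, ha⟩ := exists_letter η (fun _ => 0) (m + 1)
  obtain ⟨b, hb⟩ := exists_letter η (fun _ => 1) (m + 1)
  refine ⟨a, b, ?_, fun l hl => (ha l (by omega)).1, fun l hl => (hb l (by omega)).1⟩
  rintro rfl
  have h1 := (ha 0 (by omega)).2
  have h2 := (hb 0 (by omega)).2
  omega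

lemma al_sub {m m' : ℕ} {η η' β β' : ℕ → ℕ} (h : ∀ a, Al m' η' β' a → Al m η β a) :
    m ≤ m' ∧ ∀ l < m, η' l = η l ∧ β' l = β l := by
  have key : ∀ l ≤ m, l ≤ m' ∧ ∀ l' < l, η' l' = η l' ∧ β' l' = β l' := by
    intro l
    induction l with
    | zero => intro _; exact ⟨Nat.zero_le _, fun l' h => absurd h (Nat.not_lt_zero _)⟩
    | succ l ih =>
      intro hl
      obtain ⟨h1, h2⟩ := ih (by omega)
      have hlm : l < m' := by
        by_contra hcon
        have hml : m' = l := by omega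
        obtain ⟨a, ha⟩ := exists_letter (update η' l (η l + 1)) (fun _ => β l + 1) (l + η l + 1)
        have hv : Vis l η' a := fun l' hl' => by
          rw [(ha l' (by omega)).1, update_of_ne hl'.ne]
        have := h a ((hml ▸ hv).al _) l (by omega) (hv.congr fun l' hl' => (h2 l' hl').1.symm)
        rw [(ha l (by omega)).1, (ha (η l) (by omega)).2, update_self] at this
        omega
      have hη : η' l = η l := by
        obtain ⟨a, ha⟩ := exists_letter η' (fun _ => β l + 1) (m' + η l + 1)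
        have hv : Vis m' η' a := fun l' hl' => (ha l' (by omega)).1
        have := h a (hv.al _) l (by omega)
          ((hv.mono h1).congr fun l' hl' => (h2 l' hl').1.symm)
        rw [(ha l (by omega)).1, (ha (η l) (by omega)).2] at this
        omega
      have hβ : β' l = β l := by
        obtain ⟨a, ha⟩ := exists_letter (update η' l (η l + 1)) (fun _ => β' l) (l + η l + 1)
        have hv : Vis l η' a := fun l' hl' => by
          rw [(ha l' (by omega)).1, update_of_ne hl'.ne]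
        have hp : pc a l = η l + 1 := by rw [(ha l (by omega)).1, update_self]
        have hal : Al m' η' β' a := by
          intro l' _ hv'
          rcases lt_trichotomy l' l with h3 | rfl | h3
          · exact Or.inl (hv l' h3)
          · exact Or.inr ⟨by omega, by rw [hη, (ha (η l') (by omega)).2]⟩
          · have := hv' l h3
            omega
        have := h a hal l (by omega) (hv.congr fun l' hl' => (h2 l' hl').1.symm)
        rw [(ha (η l) (by omega)).2] at this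
        omega
      refine ⟨hlm, fun l' hl' => ?_⟩
      rcases Nat.lt_succ_iff_lt_or_eq.1 hl' with h3 | rfl
      · exact h2 l' h3
      · exact ⟨hη, hβ⟩
  exact key m le_rfl

/-- A condition: a stem, a path and a marker real for each level of the path. -/
structure Cond where
  n : ℕ
  s : ℕ → ℕ
  m : ℕ
  η : ℕ → ℕ
  α : ℕ → ℕ → ℕ

/-- The letters that the condition allows at time `j`. -/
def Cond.S (q : Cond) (j : ℕ) : Set ℕ :=
  if j < q.n then {q.s j} else {a | Al q.m q.η (q.α j) a}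

lemma Cond.mem_S_of_lt {q : Cond} {j a : ℕ} (h : j < q.n) : a ∈ q.S j ↔ a = q.s j := by
  simp [Cond.S, h]

lemma Cond.mem_S_of_le {q : Cond} {j a : ℕ} (h : q.n ≤ j) :
    a ∈ q.S j ↔ Al q.m q.η (q.α j) a := by
  simp [Cond.S, not_lt.2 h]

lemma Cond.S_nonempty (q : Cond) (j : ℕ) : (q.S j).Nonempty := by
  by_cases h : j < q.n
  · exact ⟨_, (Cond.mem_S_of_lt h).2 rfl⟩
  · obtain ⟨a, -, -, ha, -⟩ := exists_two q.m q.η
    exact ⟨a, (Cond.mem_S_of_le (not_lt.1 h)).2 (ha.al _)⟩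

lemma Cond.S_two (q : Cond) {j : ℕ} (h : q.n ≤ j) : ∃ a b, a ≠ b ∧ a ∈ q.S j ∧ b ∈ q.S j := by
  obtain ⟨a, b, hab, ha, hb⟩ := exists_two q.m q.η
  exact ⟨a, b, hab, (Cond.mem_S_of_le h).2 (ha.al _), (Cond.mem_S_of_le h).2 (hb.al _)⟩

/-- The order of conditions. -/
def Cond.Le (q' q : Cond) : Prop := ∀ j, q'.S j ⊆ q.S j

lemma Cond.Le.n_le {q' q : Cond} (h : q'.Le q) : q.n ≤ q'.n := by
  by_contra hcon
  obtain ⟨a, b, hab, ha, hb⟩ := q'.S_two (le_refl q'.n)
  have h1 := (Cond.mem_S_of_lt (not_le.1 hcon)).1 (h _ ha)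
  have h2 := (Cond.mem_S_of_lt (not_le.1 hcon)).1 (h _ hb)
  exact hab (h1.trans h2.symm)

lemma Cond.Le.data {q' q : Cond} (h : q'.Le q) {j : ℕ} (hj : q'.n ≤ j) :
    q.m ≤ q'.m ∧ ∀ l < q.m, q'.η l = q.η l ∧ q'.α j l = q.α j l :=
  al_sub fun _ ha => (Cond.mem_S_of_le (h.n_le.trans hj)).1 (h j ((Cond.mem_S_of_le hj).2 ha))

/-- Nowhere density, in terms of conditions. -/
def NWD (N : Set (ℕ → ℕ)) : Prop :=
  ∀ q : Cond, ∃ q' : Cond, q'.Le q ∧ ∀ x : ℕ → ℕ, (∀ j, x j ∈ q'.S j) → x ∉ N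

/-- The Borel set: at every level the paths coded by the letters have an attained
lexicographic lower limit. -/
def GSet : Set (ℕ → ℕ) :=
  {x | ∀ m : ℕ, ∃ η : List ℕ, (∀ k, ∃ j, k ≤ j ∧ Vis m (fun l => η.getD l 0) (x j)) ∧
    ∃ k, ∀ j, k ≤ j → ∀ l < m, Vis l (fun l => η.getD l 0) (x j) → η.getD l 0 ≤ pc (x j) l}

lemma measurableSet_GSet : MeasurableSet GSet := by
  have h : ∀ (j : ℕ) (P : ℕ → Prop), MeasurableSet {x : ℕ → ℕ | P (x j)} := fun j P =>
    measurable_pi_apply j (MeasurableSet.of_discrete (s := {a | P a}))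
  have e : GSet = ⋂ m : ℕ, ⋃ η : List ℕ,
      (⋂ k, ⋃ j, {x | k ≤ j ∧ Vis m (fun l => η.getD l 0) (x j)}) ∩
      ⋃ k, ⋂ j, {x | k ≤ j → ∀ l < m, Vis l (fun l => η.getD l 0) (x j) →
        η.getD l 0 ≤ pc (x j) l} := by
    ext x
    simp only [GSet, mem_ofPred_eq, mem_iInter, mem_iUnion, mem_inter_iff]
  rw [e]
  refine MeasurableSet.iInter fun m => MeasurableSet.iUnion fun η => MeasurableSet.inter
    (MeasurableSet.iInter fun k => MeasurableSet.iUnion fun j => ?_)
    (MeasurableSet.iUnion fun k => MeasurableSet.iInter fun j => ?_)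
  · exact h j fun a => k ≤ j ∧ Vis m (fun l => η.getD l 0) a
  · exact h j fun a => k ≤ j → ∀ l < m, Vis l (fun l => η.getD l 0) a → η.getD l 0 ≤ pc a l

/-- The first `n` values of `s`. -/
def trunc (n : ℕ) (s : ℕ → ℕ) : List ℕ := (List.range n).map s

@[simp] lemma length_trunc (n : ℕ) (s : ℕ → ℕ) : (trunc n s).length = n := by simp [trunc]

lemma getD_trunc {n j : ℕ} (s : ℕ → ℕ) (h : j < n) : (trunc n s).getD j 0 = s j := by
  simp [trunc, h]

lemma trunc_congr {n : ℕ} {s s' : ℕ → ℕ} (h : ∀ j < n, s j = s' j) : trunc n s = trunc n s' :=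
  List.map_congr_left fun j hj => h j (List.mem_range.1 hj)

/-- Every condition has a point of `GSet` outside countably many nowhere dense sets. -/
theorem exists_mem_GSet (q : Cond) (N : ℕ → Set (ℕ → ℕ)) (hN : ∀ k, NWD (N k)) :
    ∃ x : ℕ → ℕ, (∀ j, x j ∈ q.S j) ∧ x ∈ GSet ∧ ∀ k, x ∉ N k := by
  have step : ∀ (k : ℕ) (c : Cond), (k ≤ c.n ∧ k ≤ c.m) → ∃ c' : Cond,
      (k + 1 ≤ c'.n ∧ k + 1 ≤ c'.m) ∧ (c'.Le c ∧ (∀ a ∈ c'.S c.n, Vis c.m c.η a) ∧
        ∀ x : ℕ → ℕ, (∀ j, x j ∈ c'.S j) → x ∉ N k) := by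
    intro k c hc
    obtain ⟨a, -, -, ha, -⟩ := exists_two c.m c.η
    let c1 : Cond := ⟨c.n + 1, update c.s c.n a, c.m + 1, c.η, c.α⟩
    have h1 : c1.Le c := by
      intro j b hb
      rcases lt_trichotomy j c.n with hj | rfl | hj
      · rw [Cond.mem_S_of_lt (show j < c1.n from Nat.lt_succ_of_lt hj)] at hb
        rw [Cond.mem_S_of_lt hj, hb]
        exact update_of_ne hj.ne _ _
      · rw [Cond.mem_S_of_lt (show c.n < c1.n from Nat.lt_succ_self _)] at hb
        rw [Cond.mem_S_of_le le_rfl, hb]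
        simpa [c1] using ha.al _
      · rw [Cond.mem_S_of_le (show c1.n ≤ j from hj)] at hb
        rw [Cond.mem_S_of_le hj.le]
        exact hb.of_le (Nat.le_succ _) (fun _ _ => rfl) fun _ _ => rfl
    obtain ⟨c', hc', hc''⟩ := hN k c1
    refine ⟨c', ⟨?_, ?_⟩, fun j => (hc' j).trans (h1 j), fun b hb => ?_, hc''⟩
    · have : c.n + 1 ≤ c'.n := hc'.n_le
      omega
    · have : c.m + 1 ≤ c'.m := (hc'.data le_rfl).1
      omega
    · have := (Cond.mem_S_of_lt (show c.n < c1.n from Nat.lt_succ_self _)).1 (hc' _ hb)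
      rw [this]
      simpa [c1] using ha
  obtain ⟨σ, hσ0, hσ⟩ := exists_seq_of_step _ _ q ⟨Nat.zero_le _, Nat.zero_le _⟩ step
  have hle : ∀ k k', k ≤ k' → (σ k').Le (σ k) := by
    intro k k' h
    induction h with
    | refl => exact fun j => subset_rfl
    | step _ ih => exact fun j => ((hσ _).2.1 j).trans (ih j)
  have hx : ∀ k j, (σ (j + 1)).s j ∈ (σ k).S j := by
    intro k j
    have hj : j < (σ (j + 1)).n := (hσ (j + 1)).1.1
    rcases le_total k (j + 1) with h | h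
    · exact hle _ _ h j ((Cond.mem_S_of_lt hj).2 rfl)
    · obtain ⟨b, hb⟩ := (σ k).S_nonempty j
      rwa [← (Cond.mem_S_of_lt hj).1 (hle _ _ h j hb)]
  refine ⟨fun j => (σ (j + 1)).s j, fun j => hσ0 ▸ hx 0 j, fun m => ?_,
    fun k => (hσ k).2.2.2 _ (hx (k + 1))⟩
  have hm : m ≤ (σ m).m := (hσ m).1.2
  have hη : ∀ l < m, (trunc m (σ m).η).getD l 0 = (σ m).η l := fun l hl => getD_trunc _ hl
  refine ⟨trunc m (σ m).η, fun k => ⟨(σ (max k m)).n, (le_max_left _ _).trans (hσ _).1.1, ?_⟩,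
    (σ m).n, fun j hj l hl hv => ?_⟩
  · have h1 := (hσ (max k m)).2.2.1 _ (hx (max k m + 1) _)
    have h2 := (hle m (max k m) (le_max_right _ _)).data le_rfl
    exact (h1.mono (hm.trans h2.1)).congr fun l hl =>
      (hη l hl).trans (h2.2 l (by omega)).1.symm
  · rw [hη l hl]
    exact ((Cond.mem_S_of_le hj).1 (hx m j)).le (by omega)
      (hv.congr fun l' hl' => (hη l' (by omega)).symm)

end Pool.Agent.P.MP_9b1908_lc
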