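import Mathlib

/-! Mutually generic sequences of points of the Baire space. -/

set_option maxHeartbeats 400000

namespace Pool.Agent.P.MP_9b1908_lc

open Set Topology Filter Function

/-- A Kuratowski-Ulam type step for one coordinate of a countable power. -/
lemma residual_dense_update {X : Type*} [TopologicalSpace X] [SecondCountableTopology X]
    {E : Set (ℕ → X)} (hEo : IsOpen E) (hEd : Dense E) (k : ℕ) :
    {γ : X | Dense {Γ : ℕ → X | update Γ k γ ∈ E}} ∈ residual X := by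
  have hc := TopologicalSpace.countable_countableBasis (ℕ → X)
  have hb := TopologicalSpace.isBasis_countableBasis (ℕ → X)
  have h1 : ∀ U ∈ TopologicalSpace.countableBasis (ℕ → X),
      {γ : X | ∃ Γ ∈ U, update Γ k γ ∈ E} ∈ residual X := by
    intro U hU
    have hUo : IsOpen U := hb.isOpen hU
    apply residual_of_dense_open
    · have : {γ : X | ∃ Γ ∈ U, update Γ k γ ∈ E} =
          ⋃ Γ ∈ U, (fun γ => update Γ k γ) ⁻¹' E := by
        ext γ; simp
      rw [this]
      exact isOpen_biUnion fun Γ _ => hEo.preimage (continuous_const.update k continuous_id)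
    · rw [dense_iff_inter_open]
      rintro V hV ⟨v, hv⟩
      obtain ⟨Γ0, hΓ0⟩ := TopologicalSpace.nonempty_of_mem_countableBasis hU
      have hW : IsOpen ({Γ : ℕ → X | Γ k ∈ V} ∩ (fun Γ => update Γ k (Γ0 k)) ⁻¹' U) :=
        (hV.preimage (continuous_apply k)).inter
          (hUo.preimage (continuous_id.update k continuous_const))
      obtain ⟨Γ, ⟨hΓV, hΓU⟩, hΓE⟩ := hEd.inter_open_nonempty _ hW
        ⟨update Γ0 k v, by simpa using hv, by simpa using hΓ0⟩
      exact ⟨Γ k, hΓV, update Γ k (Γ0 k), hΓU, by simpa using hΓE⟩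
  filter_upwards [(countable_bInter_mem hc).2 h1] with γ hγ
  rw [hb.dense_iff]
  intro U hU _
  obtain ⟨Γ, hΓ, hE⟩ := mem_iInter₂.1 hγ U hU
  exact ⟨Γ, hΓ, hE⟩

/-- The first `k` rows from `Γ`, the others from `Γ'`. -/
def splice {X : Type*} (k : ℕ) (Γ Γ' : ℕ → X) : ℕ → X := fun r => if r < k then Γ r else Γ' r

lemma exists_gen {X : Type*} [TopologicalSpace X] [SecondCountableTopology X] {ι : Type*}
    [Countable ι] (D : ι → Set (ℕ → X)) (K : ι → ℕ) (hDo : ∀ i, IsOpen (D i))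
    (hDd : ∀ i, Dense (D i))
    (hDK : ∀ i Γ Γ', (∀ r < K i, Γ r = Γ' r) → Γ ∈ D i → Γ' ∈ D i) :
    ∃ Gen : ℕ → (ℕ → X) → Prop, (∀ Γ, Gen 0 Γ) ∧
      (∀ k Γ, Gen k Γ → {γ | Gen (k + 1) (update Γ k γ)} ∈ residual X) ∧
      ∀ i Γ, Gen (K i) Γ → Γ ∈ D i := by
  refine ⟨fun k Γ => ∀ i, Dense {Γ' | splice k Γ Γ' ∈ D i}, fun Γ i => ?_, fun k Γ h => ?_,
    fun i Γ h => ?_⟩
  · have : {Γ' | splice 0 Γ Γ' ∈ D i} = D i := by
      ext Γ'
      have : splice 0 Γ Γ' = Γ' := by funext r; simp [splice]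
      simp [this]
    rw [this]; exact hDd i
  · have h1 : ∀ i, {γ : X | Dense {Γ' | splice (k + 1) (update Γ k γ) Γ' ∈ D i}} ∈
        residual X := by
      intro i
      have hc : Continuous (splice k Γ) := by
        refine continuous_pi fun r => ?_
        unfold splice
        split_ifs
        · exact continuous_const
        · exact continuous_apply r
      have := residual_dense_update (E := {Γ' | splice k Γ Γ' ∈ D i}) ((hDo i).preimage hc)
        (h i) k
      have e : ∀ γ Γ', splice (k + 1) (update Γ k γ) Γ' = splice k Γ (update Γ' k γ) := by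
        intro γ Γ'
        funext r
        unfold splice
        rcases lt_trichotomy r k with hr | rfl | hr
        · rw [if_pos (by omega), if_pos hr, update_of_ne hr.ne]
        · simp
        · rw [if_neg (by omega), if_neg (by omega), update_of_ne hr.ne']
      simp only [e]
      exact this
    filter_upwards [countable_iInter_mem.2 h1] with γ hγ
    exact fun i => mem_iInter.1 hγ i
  · have : Nonempty (ℕ → X) := ⟨Γ⟩
    obtain ⟨Γ', hΓ'⟩ := (h i).nonempty
    exact hDK i _ _ (fun r hr => by simp [splice, hr]) hΓ'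

lemma isOpen_of_cylinder {D : Set (ℕ → ℕ → ℕ)}
    (h : ∀ Γ ∈ D, ∃ J, ∀ Γ' : ℕ → ℕ → ℕ, (∀ i < J, ∀ j < J, Γ' i j = Γ i j) → Γ' ∈ D) :
    IsOpen D := by
  rw [isOpen_iff_mem_nhds]
  intro Γ hΓ
  obtain ⟨J, hJ⟩ := h Γ hΓ
  have : ∀ᶠ Γ' in 𝓝 Γ, ∀ i ∈ Finset.range J, ∀ j ∈ Finset.range J, Γ' i j = Γ i j := by
    simp only [eventually_all_finset]
    intro i _ j _
    have hc : Continuous fun Γ' : ℕ → ℕ → ℕ => Γ' i j :=
      (continuous_apply j).comp (continuous_apply i)
    exact hc.continuousAt.eventually_mem ((isOpen_discrete {Γ i j}).mem_nhds rfl)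
  filter_upwards [this] with Γ' h'
  exact hJ Γ' fun i hi j hj => h' i (Finset.mem_range.2 hi) j (Finset.mem_range.2 hj)

lemma dense_of_cylinder {D : Set (ℕ → ℕ → ℕ)}
    (h : ∀ (Γ : ℕ → ℕ → ℕ) (J : ℕ), ∃ Γ' ∈ D, ∀ i, ∀ j < J, Γ' i j = Γ i j) : Dense D := by
  intro Γ
  choose G hG hG' using h Γ
  refine mem_closure_of_tendsto (f := G) (b := atTop) ?_ (Eventually.of_forall hG)
  rw [tendsto_pi_nhds]
  intro i
  rw [tendsto_pi_nhds]
  intro j
  refine tendsto_const_nhds.congr' ?_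
  filter_upwards [eventually_gt_atTop j] with J hJ
  exact (hG' J i j hJ).symm

/-- A function from the Baire space to a countable set has a nonmeagre fibre. -/
lemma exists_fibre {κ : Type*} [Countable κ] (e : (ℕ → ℕ) → κ) :
    ∃ c, ∀ R ∈ residual (ℕ → ℕ), ∃ γ ∈ R, e γ = c := by
  by_contra hcon
  push Not at hcon
  choose R hR hR' using hcon
  obtain ⟨γ, hγ⟩ := (dense_of_mem_residual (countable_iInter_mem.2 hR)).nonempty
  exact hR' (e γ) γ (mem_iInter.1 hγ _) rfl

lemma exists_seq_of_step {S : Type*} (Inv : ℕ → S → Prop) (Rel : ℕ → S → S → Prop) (s0 : S)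
    (h0 : Inv 0 s0) (step : ∀ k s, Inv k s → ∃ s', Inv (k + 1) s' ∧ Rel k s s') :
    ∃ σ : ℕ → S, σ 0 = s0 ∧ ∀ k, Inv k (σ k) ∧ Rel k (σ k) (σ (k + 1)) := by
  choose F hF hF' using step
  let τ : (k : ℕ) → {s // Inv k s} := fun k =>
    Nat.rec (motive := fun k => {s // Inv k s}) ⟨s0, h0⟩ (fun k s => ⟨F k s.1 s.2, hF k s.1 s.2⟩) k
  exact ⟨fun k => (τ k).1, rfl, fun k => ⟨(τ k).2, hF' k (τ k).1 (τ k).2⟩⟩

end Pool.Agent.P.MP_9b1908_lc
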