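import Pool.Agent.P.MP_9b1908_lc.Cond

/-! Every condition has a point outside `GSet` and outside countably many nowhere dense sets. -/

set_option maxHeartbeats 400000

namespace Pool.Agent.P.MP_9b1908_lc

open Set Function

/-- `t'` extends `t` by letters allowed by `q` that go to a child `≥ k` of the path of `q`. -/
def Good (q : Cond) (k : ℕ) (t t' : List ℕ) : Prop :=
  t.length ≤ t'.length ∧ (∀ j < t.length, t'.getD j 0 = t.getD j 0) ∧
    ∀ j, t.length ≤ j → j < t'.length → Al q.m q.η (q.α j) (t'.getD j 0) ∧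
      (Vis q.m q.η (t'.getD j 0) → k ≤ pc (t'.getD j 0) q.m)

/-- Every point that extends `t'`, avoids the children `≤ k` and shows `γ` misses `N`. -/
def Kill (q : Cond) (N : Set (ℕ → ℕ)) (k : ℕ) (t' : List ℕ) (γ : ℕ → ℕ) : Prop :=
  ∀ x : ℕ → ℕ, (∀ j < t'.length, x j = t'.getD j 0) →
    (∀ j, t'.length ≤ j → Al q.m q.η (q.α j) (x j) ∧ (Vis q.m q.η (x j) → k < pc (x j) q.m) ∧
      zc (x j) k = γ j) → x ∉ N

lemma exists_good_kill (q : Cond) {N : Set (ℕ → ℕ)} (hN : NWD N) (k : ℕ) (t : List ℕ)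
    (γ : ℕ → ℕ) : ∃ t', Good q k t t' ∧ Kill q N k t' γ := by
  let c : Cond := ⟨t.length, fun j => t.getD j 0, q.m + 1, update q.η q.m k,
    fun j => update (q.α j) q.m (γ j)⟩
  obtain ⟨c', hc', hk⟩ := hN c
  have hn : t.length ≤ c'.n := hc'.n_le
  have hηc : ∀ l < q.m, c.η l = q.η l := fun l hl => update_of_ne hl.ne _ _
  have hαc : ∀ j, ∀ l < q.m, c.α j l = q.α j l := fun j l hl => update_of_ne hl.ne _ _
  have hηm : c.η q.m = k := update_self ..
  have hαm : ∀ j, c.α j q.m = γ j := fun j => update_self ..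
  refine ⟨trunc c'.n c'.s, ⟨by simpa using hn, fun j hj => ?_, fun j hj hj' => ?_⟩,
    fun x hx hx' => hk x fun j => ?_⟩
  · rw [getD_trunc _ (by omega)]
    exact (Cond.mem_S_of_lt (q := c) hj).1 (hc' j ((Cond.mem_S_of_lt (by omega)).2 rfl))
  · rw [length_trunc] at hj'
    rw [getD_trunc _ hj']
    have h1 : Al c.m c.η (c.α j) (c'.s j) :=
      (Cond.mem_S_of_le (q := c) hj).1 (hc' j ((Cond.mem_S_of_lt hj').2 rfl))
    refine ⟨h1.of_le (Nat.le_succ _) hηc (hαc j), fun hv => ?_⟩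
    rw [← hηm]
    exact h1.le (Nat.lt_succ_self _) (hv.congr hηc)
  · rw [length_trunc] at hx hx'
    by_cases hj : j < c'.n
    · rw [Cond.mem_S_of_lt hj, hx j hj, getD_trunc _ hj]
    · have hj' := not_lt.1 hj
      rw [Cond.mem_S_of_le hj']
      obtain ⟨h1, h2, h3⟩ := hx' j hj'
      obtain ⟨hm, hd⟩ := hc'.data hj'
      have hη : ∀ l < q.m, c'.η l = q.η l := fun l hl =>
        (hd l (Nat.lt_succ_of_lt hl)).1.trans (hηc l hl)
      have hη' : c'.η q.m = k := (hd _ (Nat.lt_succ_self _)).1.trans hηm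
      intro l _ hv
      rcases lt_trichotomy l q.m with hl | rfl | hl
      · have := h1 l hl (hv.congr fun l' hl' => (hη l' (by omega)).symm)
        rwa [hη l hl, (hd l (Nat.lt_succ_of_lt hl)).2, hαc j l hl]
      · rw [hη', (hd _ (Nat.lt_succ_self _)).2, hαm]
        exact Or.inr ⟨h2 (hv.congr fun l' hl' => (hη l' hl').symm), h3⟩
      · have h4 := h2 ((hv.mono hl.le).congr fun l' hl' => (hη l' hl').symm)
        have h5 := hv _ hl
        omega

lemma exists_good_residual (q : Cond) {N : Set (ℕ → ℕ)} (hN : NWD N) (k : ℕ) (t : List ℕ) :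
    ∃ t', Good q k t t' ∧ ∀ R ∈ residual (ℕ → ℕ), ∃ γ ∈ R, Kill q N k t' γ := by
  choose e he he' using exists_good_kill q hN k t
  obtain ⟨t', ht'⟩ := exists_fibre e
  refine ⟨t', ?_, fun R hR => ?_⟩
  · obtain ⟨γ, -, rfl⟩ := ht' univ Filter.univ_mem
    exact he γ
  · obtain ⟨γ, hγ, rfl⟩ := ht' R hR
    exact ⟨γ, hγ, he' γ⟩

/-- The stem `t` continued by `r` letters read off `Γ`. -/
def follow (lt : List ℕ → ℕ) (K : ℕ) (t : List ℕ) (Γ : ℕ → ℕ → ℕ) (r : ℕ) : List ℕ :=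
  trunc (t.length + r) fun j => if j < t.length then t.getD j 0 else lt (trunc K fun i => Γ i j)

lemma follow_congr (lt : List ℕ → ℕ) (K : ℕ) (t : List ℕ) {Γ Γ' : ℕ → ℕ → ℕ} (r : ℕ)
    (h : ∀ i < K, ∀ j < t.length + r, Γ i j = Γ' i j) : follow lt K t Γ r = follow lt K t Γ' r :=
  trunc_congr fun j hj => by rw [trunc_congr fun i hi => h i hi j hj]

/-- The dense open sets of sequences of reals that the construction has to meet. -/
def DSet (lt : List ℕ → ℕ) (f : List ℕ → List ℕ) (K : ℕ) (t : List ℕ) : Set (ℕ → ℕ → ℕ) :=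
  {Γ | ∃ r, 1 ≤ r ∧ ∀ j, t.length + r ≤ j → j < (f (follow lt K t Γ r)).length →
    ∀ i < K, zc ((f (follow lt K t Γ r)).getD j 0) i = Γ i j}

lemma isOpen_DSet (lt : List ℕ → ℕ) (f : List ℕ → List ℕ) (K : ℕ) (t : List ℕ) :
    IsOpen (DSet lt f K t) := by
  refine isOpen_of_cylinder ?_
  rintro Γ ⟨r, hr, h⟩
  refine ⟨K + (t.length + r) + (f (follow lt K t Γ r)).length, fun Γ' h' => ⟨r, hr, ?_⟩⟩
  have e : follow lt K t Γ' r = follow lt K t Γ r :=
    follow_congr lt K t r fun i hi j hj => h' i (by omega) j (by omega)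
  rw [e]
  intro j hj hj' i hi
  rw [h j hj hj' i hi, h' i (by omega) j (by omega)]

lemma dense_DSet (lt : List ℕ → ℕ) (f : List ℕ → List ℕ) (K : ℕ) (t : List ℕ) :
    Dense (DSet lt f K t) := by
  refine dense_of_cylinder fun Γ J => ?_
  let Γ' : ℕ → ℕ → ℕ := fun i j => if j < t.length + (J + 1) then Γ i j else
    zc ((f (follow lt K t Γ (J + 1))).getD j 0) i
  have e : follow lt K t Γ' (J + 1) = follow lt K t Γ (J + 1) :=
    follow_congr lt K t _ fun i _ j hj => if_pos hj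
  refine ⟨Γ', ⟨J + 1, by omega, ?_⟩, fun i j hj => if_pos (by omega)⟩
  rw [e]
  intro j hj _ i _
  exact (if_neg (by omega)).symm

lemma DSet_congr (lt : List ℕ → ℕ) (f : List ℕ → List ℕ) (K : ℕ) (t : List ℕ)
    (Γ Γ' : ℕ → ℕ → ℕ) (h : ∀ i < K, Γ i = Γ' i) (hΓ : Γ ∈ DSet lt f K t) :
    Γ' ∈ DSet lt f K t := by
  obtain ⟨r, hr, h1⟩ := hΓ
  have e : follow lt K t Γ' r = follow lt K t Γ r :=
    follow_congr lt K t r fun i hi j _ => by rw [h i hi]
  refine ⟨r, hr, ?_⟩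
  rw [e]
  intro j hj hj' i hi
  rw [h1 j hj hj' i hi, h i hi]

theorem exists_notMem_GSet (q : Cond) (N : ℕ → Set (ℕ → ℕ)) (hN : ∀ k, NWD (N k)) :
    ∃ x : ℕ → ℕ, (∀ j, x j ∈ q.S j) ∧ x ∉ GSet ∧ ∀ k, x ∉ N k := by
  choose f hf hf' using fun k t => exists_good_residual q (hN k) k t
  have hlt : ∀ (k : ℕ) (v : List ℕ), ∃ a, Vis q.m q.η a ∧ pc a q.m = k ∧
      ∀ i < k, zc a i = v.getD i 0 := by
    intro k v
    obtain ⟨a, ha⟩ := exists_letter (update q.η q.m k) (fun i => v.getD i 0) (q.m + k + 1)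
    exact ⟨a, fun l hl => by rw [(ha l (by omega)).1, update_of_ne hl.ne],
      by rw [(ha _ (by omega)).1, update_self], fun i hi => (ha i (by omega)).2⟩
  choose lt hlt1 hlt2 hlt3 using hlt
  obtain ⟨Gen, hG0, hGs, hGD⟩ := exists_gen (ι := ℕ × List ℕ)
    (fun i => DSet (lt i.1) (f i.1) i.1 i.2) (fun i => i.1) (fun i => isOpen_DSet _ _ _ _)
    (fun i => dense_DSet _ _ _ _) fun i => DSet_congr _ _ _ _
  have step : ∀ (k : ℕ) (σ : List ℕ × (ℕ → ℕ → ℕ)), Gen k σ.2 →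
      ∃ σ' : List ℕ × (ℕ → ℕ → ℕ), Gen (k + 1) σ'.2 ∧ (σ.1.length < σ'.1.length ∧
        (∀ j < σ.1.length, σ'.1.getD j 0 = σ.1.getD j 0) ∧ (∀ i < k, σ'.2 i = σ.2 i) ∧
        Vis q.m q.η (σ'.1.getD σ.1.length 0) ∧
        (∀ j, σ.1.length ≤ j → j < σ'.1.length → Al q.m q.η (q.α j) (σ'.1.getD j 0) ∧
          (Vis q.m q.η (σ'.1.getD j 0) → k ≤ pc (σ'.1.getD j 0) q.m) ∧
          ∀ i < k, zc (σ'.1.getD j 0) i = σ.2 i j) ∧ Kill q (N k) k σ'.1 (σ'.2 k)) := by
    rintro k ⟨t, Γ⟩ hG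
    obtain ⟨r, hr, hD⟩ := hGD (k, t) Γ hG
    dsimp only at hD hG ⊢
    set t1 := follow (lt k) k t Γ r with ht1
    have hlen : t1.length = t.length + r := by simp [ht1, follow]
    obtain ⟨hg1, hg2, hg3⟩ := hf k t1
    obtain ⟨γ, hγ, hkill⟩ := hf' k t1 _ (hGs k Γ hG)
    have hmid : ∀ j, t.length ≤ j → j < t.length + r →
        (f k t1).getD j 0 = lt k (trunc k fun i => Γ i j) := by
      intro j hj hj'
      rw [hg2 j (by omega), ht1, follow, getD_trunc _ hj', if_neg (by omega)]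
    refine ⟨(f k t1, update Γ k γ), hγ, by dsimp only; omega, fun j hj => ?_,
      fun i hi => update_of_ne hi.ne _ _, ?_, fun j hj hj' => ?_, by simpa using hkill⟩
    · dsimp only
      rw [hg2 j (by omega), ht1, follow, getD_trunc _ (by omega), if_pos hj]
    · dsimp only
      rw [hmid _ le_rfl (by omega)]
      exact hlt1 _ _
    · dsimp only at hj' ⊢
      by_cases h : j < t.length + r
      · rw [hmid j hj h]
        exact ⟨(hlt1 _ _).al _, fun _ => (hlt2 _ _).ge,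
          fun i hi => by rw [hlt3 _ _ i hi, getD_trunc _ hi]⟩
      · exact ⟨(hg3 j (by omega) hj').1, (hg3 j (by omega) hj').2, hD j (by omega) hj'⟩
  obtain ⟨σ, hσ0, hσ⟩ := exists_seq_of_step (fun k σ => Gen k σ.2) _
    ((trunc q.n q.s, fun _ _ => 0) : List ℕ × (ℕ → ℕ → ℕ)) (hG0 _) step
  have hmono : StrictMono fun k => (σ k).1.length :=
    strictMono_nat_of_lt_succ fun k => (hσ k).2.1
  have hge : ∀ k, k ≤ (σ k).1.length := fun k => hmono.le_apply
  have hext : ∀ k k', k ≤ k' → ∀ j < (σ k).1.length, (σ k').1.getD j 0 = (σ k).1.getD j 0 := by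
    intro k k' h j hj
    induction h with
    | refl => rfl
    | step h ih => rw [(hσ _).2.2.1 j (hj.trans_le (hmono.monotone h)), ih]
  have hΓ : ∀ k k', k ≤ k' → ∀ i < k, (σ k').2 i = (σ k).2 i := by
    intro k k' h i hi
    induction h with
    | refl => rfl
    | step h ih => rw [(hσ _).2.2.2.1 i (hi.trans_le h), ih]
  set x : ℕ → ℕ := fun j => (σ (j + 1)).1.getD j 0 with hxdef
  have hx : ∀ k, ∀ j < (σ k).1.length, x j = (σ k).1.getD j 0 := by
    intro k j hj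
    rcases le_total k (j + 1) with h | h
    · exact hext _ _ h j hj
    · exact (hext _ _ h j (hge (j + 1))).symm
  have hloc : ∀ k j, (σ k).1.length ≤ j → ∃ k', k ≤ k' ∧ Al q.m q.η (q.α j) (x j) ∧
      (Vis q.m q.η (x j) → k' ≤ pc (x j) q.m) ∧ ∀ i < k', zc (x j) i = (σ k').2 i j := by
    intro k j hj
    have hex : ∃ k', j < (σ (k' + 1)).1.length := ⟨j, hge (j + 1)⟩
    classical
    have h1 := Nat.find_spec hex
    have h2 : (σ (Nat.find hex)).1.length ≤ j := by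
      rcases h0 : Nat.find hex with _ | k'
      · exact (hmono.monotone (Nat.zero_le k)).trans hj
      · exact not_lt.1 (Nat.find_min hex (m := k') (by omega))
    refine ⟨Nat.find hex, ?_, ?_⟩
    · have : (σ k).1.length < (σ (Nat.find hex + 1)).1.length := hj.trans_lt h1
      exact Nat.le_of_lt_succ (hmono.lt_iff_lt.1 this)
    · rw [hx _ j h1]
      exact (hσ _).2.2.2.2.2.1 j h2 h1
  have hn0 : (σ 0).1.length = q.n := by simp [hσ0]
  have hvis : ∀ k, Vis q.m q.η (x (σ k).1.length) := fun k => by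
    rw [hx (k + 1) _ (hσ k).2.1]
    exact (hσ k).2.2.2.2.1
  refine ⟨x, fun j => ?_, fun hG => ?_, fun k => (hσ k).2.2.2.2.2.2 x (hx (k + 1)) fun j hj => ?_⟩
  · by_cases hj : j < q.n
    · rw [Cond.mem_S_of_lt hj, hx 0 j (hn0 ▸ hj), hσ0]
      exact getD_trunc _ hj
    · rw [Cond.mem_S_of_le (not_lt.1 hj)]
      obtain ⟨_, -, h, -⟩ := hloc 0 j (hn0 ▸ not_lt.1 hj)
      exact h
  · obtain ⟨η', hio, k0, hleft⟩ := hG (q.m + 1)
    have hagree : ∀ l ≤ q.m, ∀ l' < l, η'.getD l' 0 = q.η l' := by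
      intro l
      induction l with
      | zero => intro _ l' h; exact absurd h (Nat.not_lt_zero _)
      | succ l ih =>
        intro hl l' hl'
        have ih' := ih (by omega)
        rcases Nat.lt_succ_iff_lt_or_eq.1 hl' with h | rfl
        · exact ih' l' h
        · apply le_antisymm
          · have h1 := hvis k0
            have := hleft _ (hge k0) l' (by omega) ((h1.mono (by omega)).congr ih')
            rwa [h1 l' (by omega)] at this
          · obtain ⟨j, hj, hv⟩ := hio q.n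
            obtain ⟨_, -, h, -⟩ := hloc 0 j (hn0 ▸ hj)
            have := h.le (l := l') (by omega)
              ((hv.mono (by omega)).congr fun l'' h'' => (ih' l'' h'').symm)
            rwa [hv l' (by omega)] at this
    obtain ⟨j, hj, hv⟩ := hio (σ (η'.getD q.m 0 + 1)).1.length
    obtain ⟨k', hk', -, h, -⟩ := hloc _ j hj
    have h1 := h ((hv.mono (Nat.le_succ _)).congr fun l hl => (hagree _ le_rfl l hl).symm)
    have h2 : pc (x j) q.m = η'.getD q.m 0 := hv _ (Nat.lt_succ_self _)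
    omega
  · obtain ⟨k', hk', h1, h2, h3⟩ := hloc (k + 1) j hj
    exact ⟨h1, fun hv => lt_of_lt_of_le hk' (h2 hv),
      by rw [h3 k hk', hΓ _ _ hk' k (Nat.lt_succ_self _)]⟩

end Pool.Agent.P.MP_9b1908_lc
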