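import Pool.Agent.P.MP_9b1908_lc.Switch

/-! The conditions as perfect trees. -/

set_option maxHeartbeats 400000

namespace Pool.Agent.P.MP_9b1908_lc

open Set Function

/-- The tree of a condition. -/
def Cond.tree (q : Cond) : Set (List ℕ) := {t | ∀ j < t.length, t.getD j 0 ∈ q.S j}

lemma getD_of_isPrefix {s t : List ℕ} (h : s <+: t) {j : ℕ} (hj : j < s.length) :
    t.getD j 0 = s.getD j 0 := by
  obtain ⟨u, rfl⟩ := h
  simp [List.getElem?_append_left hj]

lemma isPrefix_of_getD {s t : List ℕ} (hl : s.length ≤ t.length)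
    (h : ∀ j < s.length, t.getD j 0 = s.getD j 0) : s <+: t := by
  rw [List.prefix_iff_eq_take]
  refine List.ext_getElem (by simp [hl]) fun j h1 h2 => ?_
  have := h j h1
  rw [List.getD_eq_getElem _ _ h1, List.getD_eq_getElem _ _ (h1.trans_le hl)] at this
  simp [this]

lemma Cond.tree_closed (q : Cond) (s t : List ℕ) (h : s <+: t) (ht : t ∈ q.tree) :
    s ∈ q.tree := fun j hj => by
  rw [← getD_of_isPrefix h hj]
  exact ht j (hj.trans_le h.length_le)

lemma Cond.ofFn_mem_tree_iff (q : Cond) (x : ℕ → ℕ) :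
    (∀ n, List.ofFn (fun i : Fin n => x i) ∈ q.tree) ↔ ∀ j, x j ∈ q.S j := by
  have e : ∀ n j, j < n → (List.ofFn fun i : Fin n => x i).getD j 0 = x j := by
    intro n j hj
    rw [List.getD_eq_getElem _ _ (by simpa using hj)]
    simp
  constructor
  · intro h j
    have := h (j + 1) j (by simp)
    rwa [e _ _ (Nat.lt_succ_self _)] at this
  · intro h n j hj
    rw [e _ _ (by simpa using hj)]
    exact h j

lemma Cond.trunc_mem_tree (q : Cond) {n : ℕ} {x : ℕ → ℕ} (h : ∀ j < n, x j ∈ q.S j) :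
    trunc n x ∈ q.tree := fun j hj => by
  rw [length_trunc] at hj
  rw [getD_trunc _ hj]
  exact h j hj

lemma Cond.tree_subset_iff (q' q : Cond) : q'.tree ⊆ q.tree ↔ q'.Le q := by
  refine ⟨fun h j a ha => ?_, fun h t ht j hj => h j (ht j hj)⟩
  choose y hy using q'.S_nonempty
  have h1 : trunc (j + 1) (update y j a) ∈ q'.tree := by
    refine q'.trunc_mem_tree fun i _ => ?_
    by_cases hi : i = j
    · subst hi; simpa using ha
    · rw [update_of_ne hi]; exact hy i
  have := h h1 j (by simp)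
  rwa [getD_trunc _ (Nat.lt_succ_self _), update_self] at this

lemma Cond.tree_split (q : Cond) (s : List ℕ) (hs : s ∈ q.tree) :
    ∃ t ∈ q.tree, ∃ u ∈ q.tree, s <+: t ∧ s <+: u ∧ ¬ t <+: u ∧ ¬ u <+: t := by
  choose y hy using q.S_nonempty
  obtain ⟨a, b, hab, ha, hb⟩ := q.S_two (j := q.n + s.length) (Nat.le_add_right _ _)
  let w : ℕ → ℕ → ℕ := fun c j =>
    if j < s.length then s.getD j 0 else if j = q.n + s.length then c else y j
  have hw : ∀ c ∈ q.S (q.n + s.length), trunc (q.n + s.length + 1) (w c) ∈ q.tree := by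
    intro c hc
    refine q.trunc_mem_tree fun j _ => ?_
    simp only [w]
    split_ifs with h1 h2
    · exact hs j h1
    · rwa [h2]
    · exact hy j
  have hp : ∀ c, s <+: trunc (q.n + s.length + 1) (w c) := fun c =>
    isPrefix_of_getD (by simp; omega) fun j hj => by
      rw [getD_trunc _ (by omega)]; exact if_pos hj
  have hne : ∀ c c', trunc (q.n + s.length + 1) (w c) <+: trunc (q.n + s.length + 1) (w c') →
      c' = c := by
    intro c c' h
    have := getD_of_isPrefix h (j := q.n + s.length) (by simp)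
    rw [getD_trunc _ (Nat.lt_succ_self _), getD_trunc _ (Nat.lt_succ_self _)] at this
    simpa [w] using this
  exact ⟨_, hw a ha, _, hw b hb, hp a, hp b, fun h => hab (hne _ _ h).symm,
    fun h => hab (hne _ _ h)⟩

lemma exists_tree_eq_univ : ∃ q : Cond, q.tree = univ :=
  ⟨⟨0, fun _ => 0, 0, fun _ => 0, fun _ _ => 0⟩, eq_univ_of_forall fun _ _ _ =>
    (Cond.mem_S_of_le (Nat.zero_le _)).2 fun _ hl => absurd hl (Nat.not_lt_zero _)⟩

lemma Cond.exists_tree_below (q : Cond) (s : List ℕ) (hs : s ∈ q.tree) :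
    ∃ q' : Cond, q'.tree = {t ∈ q.tree | t <+: s ∨ s <+: t} := by
  let q' : Cond := ⟨max q.n s.length, fun j => if j < s.length then s.getD j 0 else q.s j,
    q.m, q.η, q.α⟩
  have h1 : ∀ j < s.length, ∀ a, a ∈ q'.S j ↔ a = s.getD j 0 := by
    intro j hj a
    rw [Cond.mem_S_of_lt (show j < q'.n from lt_max_of_lt_right hj)]
    simp only [q', if_pos hj]
  have h2 : ∀ j, s.length ≤ j → ∀ a, a ∈ q'.S j ↔ a ∈ q.S j := by
    intro j hj a
    by_cases h : j < q.n
    · rw [Cond.mem_S_of_lt (show j < q'.n from lt_max_of_lt_left h), Cond.mem_S_of_lt h]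
      simp only [q', if_neg (not_lt.2 hj)]
    · rw [Cond.mem_S_of_le (show q'.n ≤ j from max_le (not_lt.1 h) hj),
        Cond.mem_S_of_le (not_lt.1 h)]
  refine ⟨q', Set.ext fun t => ⟨fun ht => ⟨fun j hj => ?_, ?_⟩, ?_⟩⟩
  · by_cases h : j < s.length
    · rw [(h1 j h _).1 (ht j hj)]; exact hs j h
    · exact (h2 j (not_lt.1 h) _).1 (ht j hj)
  · rcases le_total t.length s.length with h | h
    · exact Or.inl (isPrefix_of_getD h fun j hj => ((h1 j (by omega) _).1 (ht j hj)).symm)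
    · exact Or.inr (isPrefix_of_getD h fun j hj => (h1 j hj _).1 (ht j (by omega)))
  · rintro ⟨ht, hc⟩ j hj
    by_cases h : j < s.length
    · rw [h1 j h]
      rcases hc with hc | hc
      · exact (getD_of_isPrefix hc hj).symm
      · exact getD_of_isPrefix hc h
    · exact (h2 j (not_lt.1 h) _).2 (ht j hj)

lemma nwd_of_trees {N : Set (ℕ → ℕ)}
    (h : ∀ T ∈ range Cond.tree, ∃ S ∈ range Cond.tree, S ⊆ T ∧
      {x : ℕ → ℕ | ∀ n, List.ofFn (fun i : Fin n => x i) ∈ S} ∩ N = ∅) : NWD N := by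
  intro q
  obtain ⟨_, ⟨q', rfl⟩, h1, h2⟩ := h _ ⟨q, rfl⟩
  refine ⟨q', (Cond.tree_subset_iff _ _).1 h1, fun x hx hN => ?_⟩
  exact (eq_empty_iff_forall_notMem.1 h2) x ⟨(q'.ofFn_mem_tree_iff x).2 hx, hN⟩

end Pool.Agent.P.MP_9b1908_lc
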